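import Pool.Agent.H771R2.HadamardDS
import Pool.Agent.Run7.h823.SG.Pro
import Pool.Agent.Run7.h823.WF.PN
import Pool.Agent.Run7.h823.WF.Ex

/-!
# Hadamard difference sets: orders near the first `m ^ ε` terms of linear recurrences modulo `m`

The question is whether the order `v = 4 w - 1` of a cyclic Hadamard difference set, with the parameters
`(4 w - 1, 2 w - 1, w - 1)`, is a prime, a product of twin primes or of the form `2 ^ k - 1`.

The starting results count the orders: almost all `w` are such that no group of order `4 w - 1` contains a Hadamard difference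
set. Such a statement says nothing about sparse sets of orders. Here are statements on very sparse FINITE sets of
orders which are defined modulo a large integer, such as the first `m ^ ε` terms of a linear recurrence modulo a prime `m`.

Let `y_i`, `i ∈ s`, be a finite family of vectors of residues modulo an integer `q` with small Fourier coefficients: for all
`h ≠ 0` modulo `q` we have `|∑ e(h·y_i / q)| ≤ δ (log q) ^ (-r) |s|`, where `r` is the number of the coordinates. We consider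
the orders `v = 4 w - 1` near `ℓ(c₀ + y_i)` (least residues), for linear forms `ℓ ≠ 0` with integral coefficients and any
integral vector `c₀`.

**Theorem.** For all `r`, `B` and `ε > 0` there is `δ > 0` such that for all `q ≥ 1 / δ`, ALL such families
and ALL `c₀` the following holds for all but `ε |s|` of the `i`, SIMULTANEOUSLY for ALL linear forms `ℓ ≠ 0` with
coefficients at most `B` in absolute value and ALL `w ≥ 1` with `|(4 w - 1) - ℓ(c₀ + y_i)| ≤ B`: no group of order
`4 w - 1`, abelian or not, contains a Hadamard difference set; in particular there is no cyclic one.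

The family can be very sparse: examples (of vectors with `r` coordinates) are

* the values `(u_1(n), …, u_r(n))`, `n < N`, of `r` linear recurrences modulo a prime `m` with linearly independent vectors
  of coefficients, as soon as `N ≥ m ^ ε` and the roots and their quotients have orders `≥ m ^ ε`;
* the vectors `(x_1 b_1 ^ n, …, x_r b_r ^ n)`, `n < N`, `N ≥ m ^ ε`, for fixed different integers `b_j ≥ 2` and
  all `x_j ≠ 0`, modulo all but `C X ^ ε` of the primes `m ≤ X`.

In these examples only `m ^ ε` of the `m ^ r` vectors of the box occur.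

From Mathlib: `ZMod.stdAddChar`: the additive character `j ↦ exp (2 π i j / q)` of the integers modulo `q`; `ZMod.val`: the
least residue.

The proof: the exclusion is that of the starting file `Pool.Agent.H771R2.HadamardDS`: a prime `q' > 2` which divides `4 w - 1`,
and a prime `r'` that is not a square modulo `q'` and divides `w` exactly once. By Dirichlet's theorem and the sieve with the
moduli `q'`, `r' ^ 2`, all of them prime to a given `M`, the vectors `c` for which there is an order near `ℓ(c)` form a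
pronull set (`Pool.Agent.Run7.h823.SG.crit1`, `affine`); families with small Fourier coefficients rarely meet pronull sets,
since they are equidistributed modulo every fixed integer (`Pool.Agent.Run7.h823.WF.PN`); the Fourier coefficients of short
recurrences are estimated by the method of Bourgain, Glibichuk and Konyagin (`Pool.Agent.Run7.h823.BK`).
-/

set_option autoImplicit false

namespace Pool.Agent.Results.MP_76589c_co.ResidueVectors

open Finset (range)

/-- The Fourier coefficients of the vectors of residues `y i`, `i ∈ s`, modulo `q` at the nonzero frequencies are at most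
`η` times the number of the vectors: `|∑ i ∈ s, e(h·y_i / q)| ≤ η |s|` for all vectors `h ≠ 0` modulo `q`. -/
def Flat {τ ι : Type} [Fintype ι] (q : ℕ) [NeZero q] (η : ℝ) (s : Finset τ) (y : τ → ι → ZMod q) : Prop :=
  ∀ h : ι → ZMod q, h ≠ 0 → ‖∑ i ∈ s, (ZMod.stdAddChar (∑ j, h j * y i j) : ℂ)‖ ≤ η * s.card

/-- The integral vector `c₀ + y_i`, with the least residues `0 ≤ y_i < q`. -/
def vec {τ ι : Type} {q : ℕ} (y : τ → ι → ZMod q) (c₀ : ι → ℤ) (i : τ) (j : ι) : ℤ := c₀ j + ((y i j).val : ℕ)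

/-- Some finite group `G` (abelian or not) of order `4 w - 1` contains a Hadamard difference set:
a set `D` of `2 w - 1` elements such that every `g ≠ 1` has exactly `w - 1` representations
`g = a * b⁻¹` with `a, b ∈ D`. -/
def HasHadamardDifferenceSet (w : ℕ) : Prop :=
  ∃ (G : Type) (_ : Group G) (_ : Fintype G) (_ : DecidableEq G) (D : Finset G),
    Fintype.card G = 4 * w - 1 ∧ D.card = 2 * w - 1 ∧
    ∀ g : G, g ≠ 1 → ((D ×ˢ D).filter (fun p : G × G => p.1 * p.2⁻¹ = g)).card = w - 1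

/-- Near the values of all small linear forms at the integral vector `c` there are no orders of Hadamard difference sets: for
all linear forms `ℓ ≠ 0` with coefficients `|lam_j| ≤ B` and all `w ≥ 1` with `|(4 w - 1) - ℓ(c)| ≤ B` no group of
order `4 w - 1` contains one. -/
def NoOrdersNear {r : ℕ} (B : ℕ) (c : Fin r → ℤ) : Prop :=
  ∀ lam : Fin r → ℤ, lam ≠ 0 → (∀ j, |lam j| ≤ B) → ∀ w : ℕ, 1 ≤ w → |(4 * w - 1 : ℤ) - ∑ j, lam j * c j| ≤ B →
    ¬ HasHadamardDifferenceSet w

open Pool.Agent.N24.RW (ProNull) in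
open Pool.Agent.Run7.h823.SG in
open Pool.Agent.H771R2.Dens in
theorem null_form {ι : Type} [Fintype ι] (lam : ι → ℤ) (hlam : lam ≠ 0) (b₀ : ℤ) :
    ProNull {c : ι → ℤ | ∃ w : ℕ, 1 ≤ w ∧ (4 * w : ℤ) = (∑ j, lam j * c j) + b₀ ∧ Pool.Agent.H771R2.HadamardDS.HasHadamard w} := by
  classical
  have hn : ∀ q : ℕ, ∃ b : ZMod q, q.Prime → 2 < q → IsUnit b ∧ b ^ ((q - 1) / 2) = -1 := by
    intro q
    by_cases hq : q.Prime ∧ 2 < q
    · obtain ⟨b, hb⟩ := Pool.Agent.H771R2.SingerDS.exists_nonres hq.1 hq.2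
      exact ⟨b, fun _ _ => hb⟩
    · exact ⟨0, fun h h' => absurd ⟨h, h'⟩ hq⟩
  choose b hb using hn
  refine affine (S := fun x => ∃ w : ℕ, 1 ≤ w ∧ (4 * w : ℤ) = x ∧ Pool.Agent.H771R2.HadamardDS.HasHadamard w)
    (crit1 _ (fun q => (q : ZMod 1) = 1 ∧ 2 < q) (fun _ => 1) (fun q r => (r : ZMod q) = b q ∧ 2 < r)
    ((big_ap isUnit_one).large 2) ?_ ?_) lam hlam b₀
  · intro q hq hq'
    have : NeZero q := ⟨hq.ne_zero⟩
    exact (big_ap (hb q hq hq'.2).1).large 2
  rintro x ⟨w, hw, rfl, hS⟩ q hq ⟨-, hq2⟩ hqc r hr ⟨hrb, hr2⟩ hr1' hr2'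
  have hr4 : IsCoprime (r : ℤ) 4 := by
    have h1 : Nat.Coprime r 4 := by
      have h2 : Nat.Coprime r 2 := (Nat.coprime_primes hr Nat.prime_two).2 (by omega)
      exact Nat.Coprime.pow_right 2 h2
    exact_mod_cast Nat.isCoprime_iff_coprime.2 h1
  refine Pool.Agent.H771R2.HadamardDS.excluded (w := w) (q := q) (r := r) hw hS hq ?_ hr ?_ ?_ ?_
  · push_cast at hqc
    exact hqc
  · have h1 : (r : ℤ) ∣ w := hr4.dvd_of_dvd_mul_left hr1'
    exact_mod_cast h1
  · intro h
    apply hr2'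
    refine Dvd.dvd.mul_left ?_ _
    exact_mod_cast h
  · rw [hrb]
    exact (hb q hq hq2).2

open Pool.Agent.N24.RW (ProNull) in
theorem null (r B : ℕ) : ProNull {c : Fin r → ℤ | ¬ NoOrdersNear B c} := by
  obtain ⟨F, hF⟩ : ∃ F : Set ((Fin r → ℤ) × ℤ), F = {a : (Fin r → ℤ) × ℤ | (a.1 ≠ 0 ∧ ∀ j, |a.1 j| ≤ B) ∧
    a.2 ∈ Set.Icc (-(B : ℤ)) B} := ⟨_, rfl⟩
  have hfin : F.Finite := by
    refine ((Pool.Agent.Run7.h823.WF.PN.finite_vec (Fin r) B).prod (Set.finite_Icc (-(B : ℤ)) B)).subset ?_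
    rw [hF]
    rintro ⟨a, b⟩ ⟨⟨-, h1⟩, h2⟩
    exact ⟨h1, h2⟩
  have h1 := Pool.Agent.Run7.h823.WF.PN.proNull_union hfin
    (fun a => {c : Fin r → ℤ | ∃ w : ℕ, 1 ≤ w ∧ (4 * w : ℤ) = (∑ j, a.1 j * c j) + (a.2 + 1) ∧
      Pool.Agent.H771R2.HadamardDS.HasHadamard w})
    (fun a ha => by
      rw [hF] at ha
      exact null_form a.1 ha.1.1 (a.2 + 1))
  refine Pool.Agent.N24.RW.Clo.mono ?_ h1
  intro c hc
  by_contra hcon
  apply hc
  intro lam hl hlB w hw hn hS
  refine hcon ⟨(lam, (4 * w - 1 : ℤ) - ∑ j, lam j * c j), ?_, w, hw, by ring, hS⟩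
  rw [hF]
  exact ⟨⟨hl, hlB⟩, abs_le.1 hn⟩

/-- **Theorem.** (1) For all `r`, `B` and `ε > 0` there is `δ > 0` such that for all `q ≥ 1 / δ`, all families of vectors of
residues modulo `q` with Fourier coefficients at most `δ (log q) ^ (-r) |s|` at the nonzero frequencies and all integral
vectors `c₀` all but `ε |s|` of the members `c₀ + y_i` have the property `NoOrdersNear B`.

(2) Examples: short linear recurrences. (3) Examples: the first powers of fixed integers, modulo all but `C X ^ ε` of the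
primes `m ≤ X`. (The Fourier coefficients are even at most `m ^ (-β) N`.) -/
theorem result :
    (∀ (r B : ℕ) (ε : ℝ), 0 < ε → ∃ δ : ℝ, 0 < δ ∧ ∀ (q : ℕ) [NeZero q], 1 / δ ≤ q →
      ∀ (τ : Type) (s : Finset τ) (y : τ → Fin r → ZMod q), Flat q (δ / Real.log q ^ r) s y →
      ∀ c₀ : Fin r → ℤ, ({i : τ | i ∈ s ∧ ¬ NoOrdersNear B (vec y c₀ i)}.ncard : ℝ) ≤ ε * s.card) ∧
    (∀ (k : ℕ) (ε : ℝ), 0 < ε → ∃ β : ℝ, 0 < β ∧ ∃ m₀ : ℕ, ∀ (m : ℕ) [Fact m.Prime], m₀ ≤ m →
      ∀ (ι : Type) [Fintype ι] (c : ι → Fin k → ZMod m) (g : Fin k → (ZMod m)ˣ) (N : ℕ), LinearIndependent (ZMod m) c →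
      (∀ i, (m : ℝ) ^ ε ≤ orderOf (g i)) → (∀ i j, i ≠ j → (m : ℝ) ^ ε ≤ orderOf (g i / g j)) → (m : ℝ) ^ ε ≤ N →
      Flat m ((m : ℝ) ^ (-β)) (range N) (fun n j => ∑ i, c j i * (g i : ZMod m) ^ n)) ∧
    (∀ (ι : Type) [Fintype ι] (ε : ℝ), 0 < ε → ∃ β : ℝ, 0 < β ∧ ∀ b : ι → ℕ, (∀ j, 2 ≤ b j) → Function.Injective b →
      ∃ C : ℝ, ∀ X : ℕ, 1 ≤ X → ∀ Q : Finset ℕ,
      (∀ m ∈ Q, m ≤ X ∧ ∃ _ : Fact m.Prime, ¬ ∀ N : ℕ, (m : ℝ) ^ ε ≤ N → ∀ x : ι → ZMod m, (∀ j, x j ≠ 0) →
        Flat m ((m : ℝ) ^ (-β)) (range N) (fun n j => x j * (b j : ZMod m) ^ n)) →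
      (Q.card : ℝ) ≤ C * (X : ℝ) ^ ε) := by
  refine ⟨?_, fun k ε hε => Pool.Agent.Run7.h823.WF.flat_rec' k hε,
    fun ι _ ε hε => Pool.Agent.Run7.h823.WF.flat_pow' ι hε⟩
  intro r B ε hε
  obtain ⟨δ, hδ, h⟩ := Pool.Agent.Run7.h823.WF.PN.rare _ (null r B) hε
  refine ⟨δ, hδ, fun q _ hq τ s y hf c₀ => h τ q hq s y ?_ c₀⟩
  rw [Fintype.card_fin]
  exact hf

end Pool.Agent.Results.MP_76589c_co.ResidueVectors
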